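import Pool.Agent.Helper16.MD.Stmts

set_option autoImplicit false

open Finset Filter

namespace Pool.Agent.Helper16.MD

theorem red_ed {N : ℕ} [NeZero N] (y : ℕ) :
    ed ((y : ℕ) : ZMod N) = Complex.exp (2 * Real.pi * Complex.I * y / N) := by
  unfold ed
  have h := ZMod.stdAddChar_coe (N := N) (y : ℤ)
  rw [Int.cast_natCast, Int.cast_natCast] at h
  exact h

theorem st_RED : ST_RED := by
  intro D hD W
  obtain ⟨g, hg⟩ : ∃ g, g = Nat.gcd D W.val := ⟨_, rfl⟩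
  have hD0 : D ≠ 0 := NeZero.ne D
  have hDpos : 0 < D := Nat.pos_of_ne_zero hD0
  have hgD : g ∣ D := by
    rw [hg]
    exact Nat.gcd_dvd_left _ _
  have hgW : g ∣ W.val := by
    rw [hg]
    exact Nat.gcd_dvd_right _ _
  have hgpos : 0 < g := Nat.pos_of_dvd_of_pos hgD hDpos
  obtain ⟨d, hd⟩ := hgD
  obtain ⟨w, hw⟩ := hgW
  have hd0 : d ≠ 0 := by
    intro h
    rw [h, mul_zero] at hd
    exact hD0 hd
  haveI : NeZero d := ⟨hd0⟩
  have hcop : Nat.Coprime w d := by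
    have h1 : Nat.Coprime (D / Nat.gcd D W.val) (W.val / Nat.gcd D W.val) :=
      Nat.coprime_div_gcd_div_gcd (Nat.gcd_pos_of_pos_left _ hDpos)
    rw [← hg] at h1
    have h2 : D / g = d := Nat.div_eq_of_eq_mul_right hgpos hd
    have h3 : W.val / g = w := Nat.div_eq_of_eq_mul_right hgpos hw
    rw [h2, h3] at h1
    exact h1.symm
  refine ⟨d, ⟨hd0⟩, (w : ZMod d), ⟨g, by rw [hd, mul_comm]⟩, ?_, ?_, ?_⟩
  · exact (ZMod.isUnit_iff_coprime w d).2 hcop
  · rw [← hg, hd, mul_comm]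
  · intro P hP
    obtain ⟨Y, hY⟩ : ∃ Y : ℕ, Y = ((P : ZMod D)⁻¹ * W).val := ⟨_, rfl⟩
    have hYc : ((Y : ℕ) : ZMod D) = (P : ZMod D)⁻¹ * W := by
      rw [hY, ZMod.natCast_val, ZMod.cast_id]
    have hPY : ((P * Y : ℕ) : ZMod D) = ((W.val : ℕ) : ZMod D) := by
      rw [Nat.cast_mul, hYc, ← mul_assoc, ZMod.coe_mul_inv_eq_one P hP, one_mul,
        ZMod.natCast_val, ZMod.cast_id]
    have hmod : P * Y ≡ W.val [MOD D] := (ZMod.natCast_eq_natCast_iff _ _ _).1 hPY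
    have hPg : Nat.Coprime g P := (Nat.Coprime.coprime_dvd_right ⟨d, hd⟩ hP).symm
    have hgY : g ∣ Y := by
      have h1 : g ∣ P * Y := (hmod.dvd_iff ⟨d, hd⟩).2 ⟨w, hw⟩
      exact hPg.dvd_of_dvd_mul_left h1
    obtain ⟨y, hy⟩ := hgY
    have hmod2 : P * y ≡ w [MOD d] := by
      have h1 : g * (P * y) ≡ g * w [MOD g * d] := by
        rw [← hd, ← hw]
        have h2 : g * (P * y) = P * Y := by
          rw [hy]
          ring
        rw [h2]
        exact hmod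
      exact Nat.ModEq.mul_left_cancel' hgpos.ne' h1
    have hPd : Nat.Coprime P d := Nat.Coprime.coprime_dvd_right ⟨g, by rw [hd, mul_comm]⟩ hP
    have hyd : ((y : ℕ) : ZMod d) = (P : ZMod d)⁻¹ * (w : ZMod d) := by
      have h1 : ((P * y : ℕ) : ZMod d) = ((w : ℕ) : ZMod d) :=
        (ZMod.natCast_eq_natCast_iff _ _ _).2 hmod2
      rw [← h1, Nat.cast_mul, ← mul_assoc, mul_comm ((P : ZMod d)⁻¹) (P : ZMod d),
        ZMod.coe_mul_inv_eq_one P hPd, one_mul]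
    rw [← hYc, ← hyd, red_ed, red_ed]
    congr 1
    have hg0 : (g : ℂ) ≠ 0 := by exact_mod_cast hgpos.ne'
    have hd0' : (d : ℂ) ≠ 0 := by exact_mod_cast hd0
    have hDc : (D : ℂ) = g * d := by exact_mod_cast hd
    have hYcc : (Y : ℂ) = g * y := by exact_mod_cast hy
    rw [hDc, hYcc]
    field_simp

end Pool.Agent.Helper16.MD
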